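import Pool.Agent.H4ES.Defs

/-!
# Schlaefli's formula for one tetrahedron, in squared edge lengths
-/

namespace Pool.Agent.H23ES

open Real Pool.Agent.H4ES

/-- The derivative of `arccos (N / √(D₁ D₂))`. -/
theorem acos {N D1 D2 : ℝ → ℝ} {N' D1' D2' x0 z G : ℝ} (hN : HasDerivAt N N' x0)
    (h1 : HasDerivAt D1 D1' x0) (h2 : HasDerivAt D2 D2' x0) (p1 : 0 < D1 x0) (p2 : 0 < D2 x0)
    (hz : 0 < z) (hG : 0 < G) (h : D1 x0 * D2 x0 - N x0 ^ 2 = z * G) :
    HasDerivAt (fun x => arccos (N x / √(D1 x * D2 x)))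
      (-(N' - N x0 * (D1' / (2 * D1 x0) + D2' / (2 * D2 x0))) / (√z * √G)) x0 := by
  have hp : 0 < D1 x0 * D2 x0 := mul_pos p1 p2
  set s := √(D1 x0 * D2 x0) with hs
  have hs0 : 0 < s := Real.sqrt_pos.2 hp
  have hss : s * s = D1 x0 * D2 x0 := Real.mul_self_sqrt hp.le
  have hzs : 0 < √z := Real.sqrt_pos.2 hz
  have hGs : 0 < √G := Real.sqrt_pos.2 hG
  have hzz : √z * √z = z := Real.mul_self_sqrt hz.le
  have hGG : √G * √G = G := Real.mul_self_sqrt hG.le
  have hd : HasDerivAt (fun x => √(D1 x * D2 x)) ((D1' * D2 x0 + D1 x0 * D2') / (2 * s)) x0 :=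
    (h1.mul h2).sqrt hp.ne'
  have hu := hN.div hd hs0.ne'
  have hsq : 1 - (N x0 / s) ^ 2 = (√z * √G / s) ^ 2 := by
    have e1 : (√z * √G / s) ^ 2 = (√z * √z) * (√G * √G) / (s * s) := by ring
    rw [e1, hzz, hGG, ← h, hss, div_pow, sq s, hss]
    field_simp
  have hpos : 0 < √z * √G / s := div_pos (mul_pos hzs hGs) hs0
  have hne1 : N x0 / s ≠ -1 := by
    intro hh
    rw [hh] at hsq
    have : 0 < (√z * √G / s) ^ 2 := by positivity
    norm_num at hsq
    linarith [hsq, this]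
  have hne2 : N x0 / s ≠ 1 := by
    intro hh
    rw [hh] at hsq
    have : 0 < (√z * √G / s) ^ 2 := by positivity
    norm_num at hsq
    linarith [hsq, this]
  have hc := (Real.hasDerivAt_arccos hne1 hne2).comp x0 hu
  have hsqrt : √(1 - (N x0 / s) ^ 2) = √z * √G / s := by
    rw [hsq]
    exact Real.sqrt_sq hpos.le
  refine hc.congr_deriv ?_
  rw [hsqrt, sq s, hss]
  have hD1 := p1.ne'
  have hD2 := p2.ne'
  have hs1 := hs0.ne'
  have hz1 := hzs.ne'
  have hG1 := hGs.ne'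
  have key : (N' * s - N x0 * ((D1' * D2 x0 + D1 x0 * D2') / (2 * s))) * s =
      (N' - N x0 * (D1' / (2 * D1 x0) + D2' / (2 * D2 x0))) * (D1 x0 * D2 x0) := by
    have e1 : (N' * s - N x0 * ((D1' * D2 x0 + D1 x0 * D2') / (2 * s))) * s =
        N' * (s * s) - N x0 * (D1' * D2 x0 + D1 x0 * D2') / 2 := by
      field_simp
    rw [e1, hss]
    field_simp
  have e2 : -(1 / (√z * √G / s)) * ((N' * s - N x0 * ((D1' * D2 x0 + D1 x0 * D2') / (2 * s))) /
      (D1 x0 * D2 x0)) = -(((N' * s - N x0 * ((D1' * D2 x0 + D1 x0 * D2') / (2 * s))) * s) /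
        (D1 x0 * D2 x0)) / (√z * √G) := by
    field_simp
  rw [e2, key]
  field_simp

/-- The formal derivative of `ar`. -/
noncomputable def ar' (q q' : Fin 4 → Fin 4 → ℝ) (i j k : Fin 4) : ℝ :=
  2 * (q' i j * q i k + q i j * q' i k + (q' i j * q j k + q i j * q' j k) +
    (q' i k * q j k + q i k * q' j k)) - 2 * q i j * q' i j - 2 * q i k * q' i k -
    2 * q j k * q' j k

/-- The formal derivative of `nu`. -/
noncomputable def nu' (q q' : Fin 4 → Fin 4 → ℝ) (i j k l : Fin 4) : ℝ :=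
  q' i j * (q i k + q i l + q j k + q j l - 2 * q k l - q i j) +
    q i j * (q' i k + q' i l + q' j k + q' j l - 2 * q' k l - q' i j)
    - ((q' i k - q' j k) * (q i l - q j l) + (q i k - q j k) * (q' i l - q' j l))

/-- `576` times the squared volume. -/
noncomputable def gr (q : Fin 4 → Fin 4 → ℝ) : ℝ :=
  4 * (q 0 1 * q 2 3 * (q 0 2 + q 0 3 + q 1 2 + q 1 3 - q 0 1 - q 2 3)
    + q 0 2 * q 1 3 * (q 0 1 + q 0 3 + q 1 2 + q 2 3 - q 0 2 - q 1 3)
    + q 0 3 * q 1 2 * (q 0 1 + q 0 2 + q 1 3 + q 2 3 - q 0 3 - q 1 2)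
    - q 0 1 * q 0 2 * q 1 2 - q 0 1 * q 0 3 * q 1 3 - q 0 2 * q 0 3 * q 2 3
    - q 1 2 * q 1 3 * q 2 3)

section

variable {q : ℝ → Fin 4 → Fin 4 → ℝ} {q' : Fin 4 → Fin 4 → ℝ} {x0 : ℝ}
  (hq : ∀ a b, HasDerivAt (fun x => q x a b) (q' a b) x0)

include hq

theorem hasDerivAt_ar (i j k : Fin 4) :
    HasDerivAt (fun x => ar (q x) i j k) (ar' (q x0) q' i j k) x0 := by
  unfold ar ar'
  refine ((((((hq i j).mul (hq i k)).add ((hq i j).mul (hq j k))).add
    ((hq i k).mul (hq j k))).const_mul 2 |>.sub ((hq i j).pow 2)).sub ((hq i k).pow 2) |>.sub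
    ((hq j k).pow 2)).congr_deriv ?_
  simp

theorem hasDerivAt_nu (i j k l : Fin 4) :
    HasDerivAt (fun x => nu (q x) i j k l) (nu' (q x0) q' i j k l) x0 := by
  unfold nu nu'
  exact ((hq i j).mul ((((((hq i k).add (hq i l)).add (hq j k)).add (hq j l)).sub
    ((hq k l).const_mul 2)).sub (hq i j))).sub
    (((hq i k).sub (hq j k)).mul ((hq i l).sub (hq j l)))

variable (hsym : ∀ x a b, q x a b = q x b a)

include hsym

theorem q'_symm (a b : Fin 4) : q' a b = q' b a := by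
  refine (hq a b).unique ?_
  have : (fun x => q x a b) = fun x => q x b a := funext fun x => hsym x a b
  rw [this]
  exact hq b a

/-- **Schlaefli's formula** for one tetrahedron. -/
theorem schlaefli (hpos : ∀ a b, a ≠ b → 0 < q x0 a b)
    (har : ∀ i j k, i ≠ j → i ≠ k → j ≠ k → 0 < ar (q x0) i j k) (hG : 0 < gr (q x0)) :
    HasDerivAt (fun x => ∑ m, √(q x (ei m) (ej m)) * th (q x) m)
      (∑ m, q' (ei m) (ej m) * th (q x0) m / (2 * √(q x0 (ei m) (ej m)))) x0 := by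
  have s' := q'_symm hq hsym
  have s := hsym x0
  -- the derivative of the angle `m`
  have hth : ∀ m, HasDerivAt (fun x => th (q x) m)
      (-(nu' (q x0) q' (ei m) (ej m) (ek m) (el m) - nu (q x0) (ei m) (ej m) (ek m) (el m) *
        (ar' (q x0) q' (ei m) (ej m) (ek m) / (2 * ar (q x0) (ei m) (ej m) (ek m)) +
          ar' (q x0) q' (ei m) (ej m) (el m) / (2 * ar (q x0) (ei m) (ej m) (el m)))) /
        (√(q x0 (ei m) (ej m)) * √(gr (q x0)))) x0 := by
    intro m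
    unfold th
    have hne : ei m ≠ ej m ∧ ei m ≠ ek m ∧ ej m ≠ ek m ∧ ei m ≠ el m ∧ ej m ≠ el m := by
      fin_cases m <;> simp [ei, ej, ek, el]
    refine acos (hasDerivAt_nu hq _ _ _ _) (hasDerivAt_ar hq _ _ _) (hasDerivAt_ar hq _ _ _)
      (har _ _ _ hne.1 hne.2.1 hne.2.2.1) (har _ _ _ hne.1 hne.2.2.2.1 hne.2.2.2.2)
      (hpos _ _ hne.1) hG ?_
    have t10 := s 1 0
    have t20 := s 2 0
    have t30 := s 3 0
    have t21 := s 2 1
    have t31 := s 3 1
    have t32 := s 3 2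
    fin_cases m <;> simp [ei, ej, ek, el, ar, nu, gr, t10, t20, t30, t21, t31, t32] <;> ring
  have hsum := HasDerivAt.fun_sum (u := (Finset.univ : Finset (Fin 6)))
    (A := fun m x => √(q x (ei m) (ej m)) * th (q x) m)
    (A' := fun m => q' (ei m) (ej m) / (2 * √(q x0 (ei m) (ej m))) * th (q x0) m +
      √(q x0 (ei m) (ej m)) * (-(nu' (q x0) q' (ei m) (ej m) (ek m) (el m) -
        nu (q x0) (ei m) (ej m) (ek m) (el m) *
        (ar' (q x0) q' (ei m) (ej m) (ek m) / (2 * ar (q x0) (ei m) (ej m) (ek m)) +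
          ar' (q x0) q' (ei m) (ej m) (el m) / (2 * ar (q x0) (ei m) (ej m) (el m)))) /
        (√(q x0 (ei m) (ej m)) * √(gr (q x0))))) (x := x0) (fun m _ => by
      have hne : ei m ≠ ej m := by fin_cases m <;> simp [ei, ej]
      exact ((hq (ei m) (ej m)).sqrt (hpos _ _ hne).ne').mul (hth m))
  refine hsum.congr_deriv ?_
  have hGs : 0 < √(gr (q x0)) := Real.sqrt_pos.2 hG
  have cancel : ∀ m, √(q x0 (ei m) (ej m)) * (-(nu' (q x0) q' (ei m) (ej m) (ek m) (el m) -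
        nu (q x0) (ei m) (ej m) (ek m) (el m) *
        (ar' (q x0) q' (ei m) (ej m) (ek m) / (2 * ar (q x0) (ei m) (ej m) (ek m)) +
          ar' (q x0) q' (ei m) (ej m) (el m) / (2 * ar (q x0) (ei m) (ej m) (el m)))) /
        (√(q x0 (ei m) (ej m)) * √(gr (q x0)))) =
      -(nu' (q x0) q' (ei m) (ej m) (ek m) (el m) -
        nu (q x0) (ei m) (ej m) (ek m) (el m) *
        (ar' (q x0) q' (ei m) (ej m) (ek m) / (2 * ar (q x0) (ei m) (ej m) (ek m)) +
          ar' (q x0) q' (ei m) (ej m) (el m) / (2 * ar (q x0) (ei m) (ej m) (el m)))) /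
        √(gr (q x0)) := by
    intro m
    have hne : ei m ≠ ej m := by fin_cases m <;> simp [ei, ej]
    have h0 : 0 < √(q x0 (ei m) (ej m)) := Real.sqrt_pos.2 (hpos _ _ hne)
    have h1 := h0.ne'
    have h2 := hGs.ne'
    field_simp
  simp only [cancel]
  rw [Finset.sum_add_distrib, ← Finset.sum_div, Finset.sum_neg_distrib]
  have zero : ∑ m, (nu' (q x0) q' (ei m) (ej m) (ek m) (el m) -
        nu (q x0) (ei m) (ej m) (ek m) (el m) *
        (ar' (q x0) q' (ei m) (ej m) (ek m) / (2 * ar (q x0) (ei m) (ej m) (ek m)) +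
          ar' (q x0) q' (ei m) (ej m) (el m) / (2 * ar (q x0) (ei m) (ej m) (el m)))) = 0 := by
    have t10 := s 1 0
    have t20 := s 2 0
    have t30 := s 3 0
    have t21 := s 2 1
    have t31 := s 3 1
    have t32 := s 3 2
    have u10 := s' 1 0
    have u20 := s' 2 0
    have u30 := s' 3 0
    have u21 := s' 2 1
    have u31 := s' 3 1
    have u32 := s' 3 2
    have p3 := (har 0 1 2 (by decide) (by decide) (by decide)).ne'
    have p2 := (har 0 1 3 (by decide) (by decide) (by decide)).ne'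
    have p1 := (har 0 2 3 (by decide) (by decide) (by decide)).ne'
    have p0 := (har 1 2 3 (by decide) (by decide) (by decide)).ne'
    -- the same faces in another order
    have a1 : ar (q x0) 0 2 1 = ar (q x0) 0 1 2 := by simp [ar, t21]; ring
    have a2 : ar (q x0) 1 2 0 = ar (q x0) 0 1 2 := by simp [ar, t10, t20]; ring
    have a3 : ar (q x0) 0 3 1 = ar (q x0) 0 1 3 := by simp [ar, t31]; ring
    have a4 : ar (q x0) 1 3 0 = ar (q x0) 0 1 3 := by simp [ar, t10, t30]; ring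
    have a5 : ar (q x0) 0 3 2 = ar (q x0) 0 2 3 := by simp [ar, t32]; ring
    have a6 : ar (q x0) 2 3 0 = ar (q x0) 0 2 3 := by simp [ar, t20, t30]; ring
    have a7 : ar (q x0) 1 3 2 = ar (q x0) 1 2 3 := by simp [ar, t32]; ring
    have a8 : ar (q x0) 2 3 1 = ar (q x0) 1 2 3 := by simp [ar, t21, t31]; ring
    have b1 : ar' (q x0) q' 0 2 1 = ar' (q x0) q' 0 1 2 := by simp [ar', t21, u21]; ring
    have b2 : ar' (q x0) q' 1 2 0 = ar' (q x0) q' 0 1 2 := by simp [ar', t10, t20, u10, u20]; ring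
    have b3 : ar' (q x0) q' 0 3 1 = ar' (q x0) q' 0 1 3 := by simp [ar', t31, u31]; ring
    have b4 : ar' (q x0) q' 1 3 0 = ar' (q x0) q' 0 1 3 := by simp [ar', t10, t30, u10, u30]; ring
    have b5 : ar' (q x0) q' 0 3 2 = ar' (q x0) q' 0 2 3 := by simp [ar', t32, u32]; ring
    have b6 : ar' (q x0) q' 2 3 0 = ar' (q x0) q' 0 2 3 := by simp [ar', t20, t30, u20, u30]; ring
    have b7 : ar' (q x0) q' 1 3 2 = ar' (q x0) q' 1 2 3 := by simp [ar', t32, u32]; ring
    have b8 : ar' (q x0) q' 2 3 1 = ar' (q x0) q' 1 2 3 := by simp [ar', t21, t31, u21, u31]; ring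
    have c3 : nu (q x0) 0 1 2 3 + nu (q x0) 0 2 1 3 + nu (q x0) 1 2 0 3 = ar (q x0) 0 1 2 := by
      simp [ar, nu, t10, t20, t30, t21, t31, t32]; ring
    have c2 : nu (q x0) 0 1 2 3 + nu (q x0) 0 3 1 2 + nu (q x0) 1 3 0 2 = ar (q x0) 0 1 3 := by
      simp [ar, nu, t10, t20, t30, t21, t31, t32]; ring
    have c1 : nu (q x0) 0 2 1 3 + nu (q x0) 0 3 1 2 + nu (q x0) 2 3 0 1 = ar (q x0) 0 2 3 := by
      simp [ar, nu, t10, t20, t30, t21, t31, t32]; ring
    have c0 : nu (q x0) 1 2 0 3 + nu (q x0) 1 3 0 2 + nu (q x0) 2 3 0 1 = ar (q x0) 1 2 3 := by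
      simp [ar, nu, t10, t20, t30, t21, t31, t32]; ring
    have dsum : nu' (q x0) q' 0 1 2 3 + nu' (q x0) q' 0 2 1 3 + nu' (q x0) q' 0 3 1 2 +
        nu' (q x0) q' 1 2 0 3 + nu' (q x0) q' 1 3 0 2 + nu' (q x0) q' 2 3 0 1 =
        (ar' (q x0) q' 0 1 2 + ar' (q x0) q' 0 1 3 + ar' (q x0) q' 0 2 3 +
          ar' (q x0) q' 1 2 3) / 2 := by
      simp [ar', nu', t10, t20, t30, t21, t31, t32, u10, u20, u30, u21, u31, u32]; ring
    have div3 : ar' (q x0) q' 0 1 2 / (2 * ar (q x0) 0 1 2) *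
        (nu (q x0) 0 1 2 3 + nu (q x0) 0 2 1 3 + nu (q x0) 1 2 0 3) =
        ar' (q x0) q' 0 1 2 / 2 := by rw [c3]; field_simp
    have div2 : ar' (q x0) q' 0 1 3 / (2 * ar (q x0) 0 1 3) *
        (nu (q x0) 0 1 2 3 + nu (q x0) 0 3 1 2 + nu (q x0) 1 3 0 2) =
        ar' (q x0) q' 0 1 3 / 2 := by rw [c2]; field_simp
    have div1 : ar' (q x0) q' 0 2 3 / (2 * ar (q x0) 0 2 3) *
        (nu (q x0) 0 2 1 3 + nu (q x0) 0 3 1 2 + nu (q x0) 2 3 0 1) =
        ar' (q x0) q' 0 2 3 / 2 := by rw [c1]; field_simp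
    have div0 : ar' (q x0) q' 1 2 3 / (2 * ar (q x0) 1 2 3) *
        (nu (q x0) 1 2 0 3 + nu (q x0) 1 3 0 2 + nu (q x0) 2 3 0 1) =
        ar' (q x0) q' 1 2 3 / 2 := by rw [c0]; field_simp
    rw [Fin.sum_univ_six]
    simp only [show ei 0 = 0 from rfl, show ei 1 = 0 from rfl, show ei 2 = 0 from rfl,
      show ei 3 = 1 from rfl, show ei 4 = 1 from rfl, show ei 5 = 2 from rfl,
      show ej 0 = 1 from rfl, show ej 1 = 2 from rfl, show ej 2 = 3 from rfl,
      show ej 3 = 2 from rfl, show ej 4 = 3 from rfl, show ej 5 = 3 from rfl,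
      show ek 0 = 2 from rfl, show ek 1 = 1 from rfl, show ek 2 = 1 from rfl,
      show ek 3 = 0 from rfl, show ek 4 = 0 from rfl, show ek 5 = 0 from rfl,
      show el 0 = 3 from rfl, show el 1 = 3 from rfl, show el 2 = 2 from rfl,
      show el 3 = 3 from rfl, show el 4 = 2 from rfl, show el 5 = 1 from rfl]
    rw [a1, a2, a3, a4, a5, a6, a7, a8, b1, b2, b3, b4, b5, b6, b7, b8]
    linear_combination dsum - div3 - div2 - div1 - div0
  rw [zero, neg_zero, zero_div, add_zero]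
  refine Finset.sum_congr rfl fun m _ => ?_
  ring

end

end Pool.Agent.H23ES
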